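import Mathlib

/-!
# The Henson graphs are not sunflowerable

For every `n ≥ 3` the generic countable `K_n`-free graph `H_n` exists and is not sunflowerable:
already with `k = 2`, labelling a vertex `v` of `H_n` (on the vertex set `ℕ`) by the two-element
set coding `v` and the least neighbour of `v`.
-/

namespace Pool.Agent.Results.MP_ac8c78_lc.NotSunflowerable

open Set

universe u v

/-- `G` is (isomorphic to) the Henson graph `H_n`: a countable ultrahomogeneous graph whose finite
induced subgraphs are, up to isomorphism, exactly the finite `K_n`-free graphs. -/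
structure IsHenson (n : ℕ) {V : Type u} (G : SimpleGraph V) : Prop where
  /-- the vertex set is countable -/
  countable : Countable V
  /-- every isomorphism between finite induced subgraphs extends to an automorphism -/
  ultrahomogeneous : ∀ (s : Finset V) (f : V → V), Set.InjOn f s →
    (∀ x ∈ s, ∀ y ∈ s, G.Adj (f x) (f y) ↔ G.Adj x y) → ∃ g : G ≃g G, ∀ x ∈ s, g x = f x
  /-- the finite induced subgraphs are exactly the finite `K_n`-free graphs -/
  age : ∀ (m : ℕ) (A : SimpleGraph (Fin m)), Nonempty (A ↪g G) ↔ A.CliqueFree n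

/-- A family of finite sets is a sunflower if all intersections of two distinct members are equal
to one and the same set `r`. -/
def IsSunflower {α : Type v} (Y : Set (Finset α)) : Prop :=
  ∃ r : Set α, ∀ p ∈ Y, ∀ q ∈ Y, p ≠ q → (p : Set α) ∩ (q : Set α) = r

/-- `G` is sunflowerable: for every `k` and every graph `G'` isomorphic to `G` whose set of
vertices `M'` consists of `k`-element sets, there is a set `M₀ ⊆ M'` of vertices which is a
sunflower and for which the subgraph of `G'` induced on `M₀` is isomorphic to `G`. -/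
def Sunflowerable {V : Type u} (G : SimpleGraph V) : Prop :=
  ∀ (k : ℕ) (α : Type v) (M' : Set (Finset α)) (G' : SimpleGraph M'),
    (∀ p ∈ M', p.card = k) → Nonempty (G' ≃g G) →
      ∃ M₀ : Set M', IsSunflower (Subtype.val '' M₀) ∧ Nonempty (G'.induce M₀ ≃g G)

/-! ## Existence of the Henson graph -/

section Existence

/-- every finite set of naturals is coded by arbitrarily large numbers -/
noncomputable def code (t : ℕ) : Finset ℕ :=
  ((Encodable.decode (α := Finset ℕ) (Nat.unpair t).1).getD ∅).filter (· < t)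

lemma code_lt {t x : ℕ} (h : x ∈ code t) : x < t := (Finset.mem_filter.1 h).2

lemma exists_code (A : Finset ℕ) (N : ℕ) : ∃ t, N ≤ t ∧ code t = A := by
  let k := N + (A.sup id + 1)
  refine ⟨Nat.pair (Encodable.encode A) k, ?_, ?_⟩
  · exact le_trans (Nat.le_add_right _ _) (Nat.right_le_pair _ _)
  · have hk : k ≤ Nat.pair (Encodable.encode A) k := Nat.right_le_pair _ _
    unfold code
    rw [Nat.unpair_pair]
    simp only [Encodable.encodek, Option.getD_some]
    apply Finset.filter_true_of_mem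
    intro x hx
    have : x ≤ A.sup id := Finset.le_sup (f := id) hx
    omega

open Classical in
/-- lower neighbours of `t` -/
noncomputable def low (m : ℕ) : ℕ → Finset ℕ :=
  Nat.lt_wfRel.wf.fix (fun t rec =>
    if (∃ s ⊆ code t, s.card = m ∧ ∀ x ∈ s, ∀ y ∈ s, x < y → ∃ h : y < t, x ∈ rec y h)
    then ∅ else code t)

open Classical in
lemma low_eq (m t : ℕ) : low m t =
    if (∃ s ⊆ code t, s.card = m ∧ ∀ x ∈ s, ∀ y ∈ s, x < y → ∃ _ : y < t, x ∈ low m y)
    then ∅ else code t := by
  unfold low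
  rw [WellFounded.fix_eq]

lemma low_subset (m t : ℕ) : low m t ⊆ code t := by
  rw [low_eq]; split_ifs
  · exact Finset.empty_subset _
  · exact subset_rfl

lemma low_lt {m t x : ℕ} (h : x ∈ low m t) : x < t := code_lt (low_subset m t h)

/-- The Henson graph `H_{m+1}`. -/
def HG (m : ℕ) : SimpleGraph ℕ where
  Adj x y := x ∈ low m y ∨ y ∈ low m x
  symm := ⟨fun _ _ h => h.symm⟩
  loopless := ⟨fun x h => by
    rcases h with h | h <;> exact lt_irrefl _ (low_lt h)⟩

lemma HG_adj {m x y : ℕ} : (HG m).Adj x y ↔ x ∈ low m y ∨ y ∈ low m x := Iff.rfl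

lemma HG_adj_of_lt {m x y : ℕ} (h : x < y) : (HG m).Adj x y ↔ x ∈ low m y := by
  rw [HG_adj]
  constructor
  · rintro (h1 | h1)
    · exact h1
    · exact absurd (low_lt h1) (by omega)
  · exact Or.inl

lemma HG_cliqueFree (m : ℕ) (hm : 1 ≤ m) : (HG m).CliqueFree (m + 1) := by
  intro s hs
  have hne : s.Nonempty := by
    rw [← Finset.card_pos, hs.card_eq]; omega
  set t := s.max' hne with ht
  have hts : t ∈ s := s.max'_mem hne
  have hlt : ∀ x ∈ s.erase t, x < t := by
    intro x hx
    exact lt_of_le_of_ne (s.le_max' x (Finset.mem_of_mem_erase hx)) (Finset.ne_of_mem_erase hx)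
  have hlow : s.erase t ⊆ low m t := by
    intro x hx
    have h1 : (HG m).Adj x t := hs.isClique (Finset.mem_coe.2 (Finset.mem_of_mem_erase hx))
      (Finset.mem_coe.2 hts) (Finset.ne_of_mem_erase hx)
    exact (HG_adj_of_lt (hlt x hx)).1 h1
  have hcard : (s.erase t).card = m := by
    rw [Finset.card_erase_of_mem hts, hs.card_eq]; rfl
  have hcond : ∃ s ⊆ code t, s.card = m ∧
      ∀ x ∈ s, ∀ y ∈ s, x < y → ∃ _ : y < t, x ∈ low m y := by
    refine ⟨s.erase t, hlow.trans (low_subset m t), hcard, ?_⟩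
    intro x hx y hy hxy
    refine ⟨hlt y hy, ?_⟩
    have h1 : (HG m).Adj x y := hs.isClique (Finset.mem_coe.2 (Finset.mem_of_mem_erase hx))
      (Finset.mem_coe.2 (Finset.mem_of_mem_erase hy)) hxy.ne
    exact (HG_adj_of_lt hxy).1 h1
  have h0 : low m t = ∅ := by
    rw [low_eq, if_pos hcond]
  rw [h0, Finset.subset_empty] at hlow
  rw [hlow] at hcard
  simp at hcard
  omega

/-- the extension property -/
lemma HG_ext (m : ℕ) (A B : Finset ℕ) (hAB : Disjoint A B)
    (hA : ∀ s ⊆ A, ¬ (HG m).IsNClique m s) :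
    ∃ v, v ∉ A ∧ v ∉ B ∧ (∀ a ∈ A, (HG m).Adj v a) ∧ ∀ b ∈ B, ¬ (HG m).Adj v b := by
  obtain ⟨t, ht, hc⟩ := exists_code A (A.sup id + B.sup id + 1)
  have hAt : ∀ a ∈ A, a < t := by
    intro a ha
    have : a ≤ A.sup id := Finset.le_sup (f := id) ha
    omega
  have hBt : ∀ a ∈ B, a < t := by
    intro a ha
    have : a ≤ B.sup id := Finset.le_sup (f := id) ha
    omega
  have hcond : ¬ ∃ s ⊆ code t, s.card = m ∧
      ∀ x ∈ s, ∀ y ∈ s, x < y → ∃ _ : y < t, x ∈ low m y := by
    rintro ⟨s, hs, hcard, hadj⟩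
    rw [hc] at hs
    apply hA s hs
    rw [SimpleGraph.isNClique_iff]
    refine ⟨?_, hcard⟩
    intro x hx y hy hxy
    rcases lt_or_gt_of_ne hxy with h | h
    · exact Or.inl (hadj x hx y hy h).2
    · exact Or.inr (hadj y hy x hx h).2
  have hlow : low m t = A := by rw [low_eq, if_neg hcond, hc]
  refine ⟨t, fun h => lt_irrefl _ (hAt t h), fun h => lt_irrefl _ (hBt t h), ?_, ?_⟩
  · intro a ha
    exact Or.inr (by rw [hlow]; exact ha)
  · intro b hb h
    rcases h with h | h
    · exact absurd (low_lt h) (by have := hBt b hb; omega)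
    · rw [hlow] at h
      exact (Finset.disjoint_left.1 hAB) h hb

/-- finite partial isomorphisms of `HG m` -/
def PI (m : ℕ) : Type :=
  {f : Finset (ℕ × ℕ) // ∀ p ∈ f, ∀ q ∈ f,
    (p.1 = q.1 ↔ p.2 = q.2) ∧ ((HG m).Adj p.1 q.1 ↔ (HG m).Adj p.2 q.2)}

instance (m : ℕ) : PartialOrder (PI m) := Subtype.partialOrder _

lemma PI_le {m : ℕ} {f g : PI m} : f ≤ g ↔ f.1 ⊆ g.1 := Iff.rfl

/-- swapping the coordinates -/
noncomputable def PI.swap {m : ℕ} (f : PI m) : PI m :=
  ⟨f.1.image Prod.swap, by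
    intro p hp q hq
    simp only [Finset.mem_image] at hp hq
    obtain ⟨p', hp', rfl⟩ := hp
    obtain ⟨q', hq', rfl⟩ := hq
    have := f.2 p' hp' q' hq'
    exact ⟨this.1.symm, this.2.symm⟩⟩

lemma PI.mem_swap {m : ℕ} (f : PI m) (a b : ℕ) : (a, b) ∈ f.swap.1 ↔ (b, a) ∈ f.1 := by
  simp only [PI.swap, Finset.mem_image]
  constructor
  · rintro ⟨⟨x, y⟩, hp, h⟩
    simp only [Prod.swap_prod_mk, Prod.mk.injEq] at h
    obtain ⟨rfl, rfl⟩ := h
    exact hp
  · intro h
    exact ⟨(b, a), h, rfl⟩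

lemma extend_right (m : ℕ) (hm : 1 ≤ m) (f : PI m) (a : ℕ) :
    ∃ g : PI m, f ≤ g ∧ ∃ b, (a, b) ∈ g.1 := by
  classical
  by_cases ha : ∃ b, (a, b) ∈ f.1
  · exact ⟨f, le_rfl, ha⟩
  push Not at ha
  let A := (f.1.filter (fun p => (HG m).Adj a p.1)).image Prod.snd
  let B := (f.1.filter (fun p => ¬ (HG m).Adj a p.1)).image Prod.snd
  have hAB : Disjoint A B := by
    rw [Finset.disjoint_left]
    intro x hx hy
    simp only [A, B, Finset.mem_image, Finset.mem_filter] at hx hy
    obtain ⟨p, ⟨hp, hpa⟩, rfl⟩ := hx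
    obtain ⟨q, ⟨hq, hqa⟩, hqp⟩ := hy
    have := (f.2 q hq p hp).1.2 hqp
    rw [this] at hqa
    exact hqa hpa
  have hA : ∀ s ⊆ A, ¬ (HG m).IsNClique m s := by
    intro s hs hcl
    -- preimage of `s`
    let P := f.1.filter (fun p => p.2 ∈ s)
    have hP : ∀ p ∈ P, p ∈ f.1 ∧ p.2 ∈ s := fun p hp => Finset.mem_filter.1 hp
    have hPa : ∀ p ∈ P, (HG m).Adj a p.1 := by
      intro p hp
      have h1 := hs (hP p hp).2
      simp only [A, Finset.mem_image, Finset.mem_filter] at h1
      obtain ⟨q, ⟨hq, hqa⟩, hqp⟩ := h1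
      have := (f.2 q hq p (hP p hp).1).1.2 hqp
      rw [← this]; exact hqa
    have himg : P.image Prod.snd = s := by
      ext x
      simp only [P, Finset.mem_image, Finset.mem_filter]
      constructor
      · rintro ⟨p, ⟨_, hp⟩, rfl⟩; exact hp
      · intro hx
        have h1 := hs hx
        simp only [A, Finset.mem_image, Finset.mem_filter] at h1
        obtain ⟨q, ⟨hq, _⟩, rfl⟩ := h1
        exact ⟨q, ⟨hq, hx⟩, rfl⟩
    have hc1 : P.card = m := by
      rw [← hcl.card_eq, ← himg, Finset.card_image_of_injOn]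
      intro p hp q hq hpq
      have h1 := (f.2 p (hP p hp).1 q (hP q hq).1).1.2 hpq
      exact Prod.ext h1 hpq
    have hc2 : (P.image Prod.fst).card = m := by
      rw [← hc1, Finset.card_image_of_injOn]
      intro p hp q hq hpq
      have h1 := (f.2 p (hP p hp).1 q (hP q hq).1).1.1 hpq
      exact Prod.ext hpq h1
    have hanot : a ∉ P.image Prod.fst := by
      simp only [Finset.mem_image]
      rintro ⟨p, hp, rfl⟩
      exact (HG m).irrefl (hPa p hp)
    apply HG_cliqueFree m hm (insert a (P.image Prod.fst))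
    rw [SimpleGraph.isNClique_iff]
    refine ⟨?_, by rw [Finset.card_insert_of_notMem hanot, hc2]⟩
    rw [Finset.coe_insert, SimpleGraph.isClique_insert]
    refine ⟨?_, ?_⟩
    · intro x hx y hy hxy
      simp only [Finset.coe_image, Set.mem_image, Finset.mem_coe] at hx hy
      obtain ⟨p, hp, rfl⟩ := hx
      obtain ⟨q, hq, rfl⟩ := hy
      have h1 := f.2 p (hP p hp).1 q (hP q hq).1
      rw [h1.2]
      refine hcl.isClique (Finset.mem_coe.2 (hP p hp).2) (Finset.mem_coe.2 (hP q hq).2) ?_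
      intro h
      exact hxy (h1.1.2 h)
    · intro x hx _
      simp only [Finset.coe_image, Set.mem_image, Finset.mem_coe] at hx
      obtain ⟨p, hp, rfl⟩ := hx
      exact hPa p hp
  obtain ⟨b, hbA, hbB, hb1, hb2⟩ := HG_ext m A B hAB hA
  have hbn : ∀ p ∈ f.1, p.2 ≠ b := by
    intro p hp h
    by_cases hpa : (HG m).Adj a p.1
    · apply hbA; rw [← h]
      exact Finset.mem_image_of_mem _ (Finset.mem_filter.2 ⟨hp, hpa⟩)
    · apply hbB; rw [← h]
      exact Finset.mem_image_of_mem _ (Finset.mem_filter.2 ⟨hp, hpa⟩)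
  have han : ∀ p ∈ f.1, p.1 ≠ a := by
    intro p hp h
    apply ha p.2
    rw [← h]; exact hp
  have hadj : ∀ p ∈ f.1, ((HG m).Adj a p.1 ↔ (HG m).Adj b p.2) := by
    intro p hp
    by_cases hpa : (HG m).Adj a p.1
    · have := hb1 p.2 (Finset.mem_image_of_mem _ (Finset.mem_filter.2 ⟨hp, hpa⟩))
      exact ⟨fun _ => this, fun _ => hpa⟩
    · have := hb2 p.2 (Finset.mem_image_of_mem _ (Finset.mem_filter.2 ⟨hp, hpa⟩))
      exact ⟨fun h => absurd h hpa, fun h => absurd h this⟩
  refine ⟨⟨insert (a, b) f.1, ?_⟩, ?_, b, Finset.mem_insert_self _ _⟩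
  · intro p hp q hq
    rw [Finset.mem_insert] at hp hq
    rcases hp with rfl | hp <;> rcases hq with rfl | hq
    · simp
    · refine ⟨⟨fun h => absurd h.symm (han q hq), fun h => absurd h.symm (hbn q hq)⟩, hadj q hq⟩
    · refine ⟨⟨fun h => absurd h (han p hp), fun h => absurd h (hbn p hp)⟩, ?_⟩
      rw [SimpleGraph.adj_comm, (HG m).adj_comm p.2]
      exact hadj p hp
    · exact f.2 p hp q hq
  · exact Finset.subset_insert _ _

lemma extend_left (m : ℕ) (hm : 1 ≤ m) (f : PI m) (b : ℕ) :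
    ∃ g : PI m, f ≤ g ∧ ∃ a, (a, b) ∈ g.1 := by
  obtain ⟨g, hg, a, ha⟩ := extend_right m hm f.swap b
  refine ⟨g.swap, ?_, a, (PI.mem_swap _ _ _).2 ha⟩
  rintro ⟨x, y⟩ hp
  rw [PI.mem_swap]
  apply hg
  rw [PI.mem_swap]; exact hp

/-- the cofinal sets used in the back-and-forth argument -/
def cof (m : ℕ) (hm : 1 ≤ m) : ℕ ⊕ ℕ → Order.Cofinal (PI m)
  | Sum.inl a => ⟨{f | ∃ b, (a, b) ∈ f.1}, fun f => by
      obtain ⟨g, hg, h⟩ := extend_right m hm f a
      exact ⟨g, h, hg⟩⟩
  | Sum.inr b => ⟨{f | ∃ a, (a, b) ∈ f.1}, fun f => by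
      obtain ⟨g, hg, h⟩ := extend_left m hm f b
      exact ⟨g, h, hg⟩⟩

/-- every finite partial isomorphism extends to an automorphism -/
lemma back_and_forth (m : ℕ) (hm : 1 ≤ m) (f : PI m) :
    ∃ g : HG m ≃g HG m, ∀ p ∈ f.1, g p.1 = p.2 := by
  let I := Order.idealOfCofinals f (cof m hm)
  have hfI : f ∈ I := Order.mem_idealOfCofinals f (cof m hm)
  have hdir : ∀ g ∈ I, ∀ h ∈ I, ∃ k ∈ I, g ≤ k ∧ h ≤ k := by
    intro g hg h hh
    obtain ⟨k, hk, h1, h2⟩ := I.directed g hg h hh
    exact ⟨k, hk, h1, h2⟩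
  have hpair : ∀ (p q : ℕ × ℕ), (∃ g ∈ I, p ∈ g.1) → (∃ g ∈ I, q ∈ g.1) →
      (p.1 = q.1 ↔ p.2 = q.2) ∧ ((HG m).Adj p.1 q.1 ↔ (HG m).Adj p.2 q.2) := by
    rintro p q ⟨g, hg, hp⟩ ⟨h, hh, hq⟩
    obtain ⟨k, _, h1, h2⟩ := hdir g hg h hh
    exact k.2 p (h1 hp) q (h2 hq)
  have hF : ∀ a, ∃ b, ∃ g ∈ I, (a, b) ∈ g.1 := by
    intro a
    obtain ⟨g, hg, hgI⟩ := Order.cofinal_meets_idealOfCofinals f (cof m hm) (Sum.inl a)
    obtain ⟨b, hb⟩ := hg
    exact ⟨b, g, hgI, hb⟩
  have hG : ∀ b, ∃ a, ∃ g ∈ I, (a, b) ∈ g.1 := by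
    intro b
    obtain ⟨g, hg, hgI⟩ := Order.cofinal_meets_idealOfCofinals f (cof m hm) (Sum.inr b)
    obtain ⟨a, ha⟩ := hg
    exact ⟨a, g, hgI, ha⟩
  choose F hF using hF
  choose F' hF' using hG
  refine ⟨⟨⟨F, F', ?_, ?_⟩, ?_⟩, ?_⟩
  · intro a
    exact (hpair _ _ (hF' (F a)) (hF a)).1.2 rfl
  · intro b
    exact (hpair _ _ (hF (F' b)) (hF' b)).1.1 rfl
  · intro a b
    exact (hpair _ _ (hF a) (hF b)).2.symm
  · intro p hp
    exact (hpair (p.1, F p.1) p (hF p.1) ⟨f, hfI, hp⟩).1.1 rfl

lemma HG_age (m : ℕ) (k : ℕ) (A : SimpleGraph (Fin k)) (hA : A.CliqueFree (m + 1)) :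
    Nonempty (A ↪g HG m) := by
  classical
  induction k with
  | zero => exact ⟨⟨⟨Fin.elim0, fun x => x.elim0⟩, fun {x} => x.elim0⟩⟩
  | succ k ih =>
    have hA' : (A.comap (Fin.castSucc : Fin k → Fin (k + 1))).CliqueFree (m + 1) :=
      SimpleGraph.CliqueFree.comap
        (SimpleGraph.Embedding.comap Fin.castSuccEmb A).isContained hA
    obtain ⟨e⟩ := ih _ hA'
    have he : ∀ x y : Fin k, (HG m).Adj (e x) (e y) ↔ A.Adj x.castSucc y.castSucc := by
      intro x y
      rw [e.map_adj_iff]; rfl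
    let P := Finset.univ.filter (fun x : Fin k => A.Adj (Fin.last k) x.castSucc)
    let Q := Finset.univ.filter (fun x : Fin k => ¬ A.Adj (Fin.last k) x.castSucc)
    have hdisj : Disjoint (P.map e.toEmbedding) (Q.map e.toEmbedding) := by
      rw [Finset.disjoint_map]
      exact Finset.disjoint_filter_filter_not _ _ _
    have hcf : ∀ s ⊆ P.map e.toEmbedding, ¬ (HG m).IsNClique m s := by
      intro s hs hcl
      obtain ⟨t, htP, rfl⟩ := Finset.subset_map_iff.1 hs
      have hlast : Fin.last k ∉ t.map Fin.castSuccEmb := by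
        simp only [Finset.mem_map]
        rintro ⟨x, _, hx⟩
        exact absurd hx (Fin.castSucc_lt_last x).ne
      apply hA (insert (Fin.last k) (t.map Fin.castSuccEmb))
      rw [SimpleGraph.isNClique_iff]
      refine ⟨?_, ?_⟩
      · rw [Finset.coe_insert, SimpleGraph.isClique_insert]
        refine ⟨?_, ?_⟩
        · intro x hx y hy hxy
          simp only [Finset.coe_map, Set.mem_image, Finset.mem_coe] at hx hy
          obtain ⟨x', hx', rfl⟩ := hx
          obtain ⟨y', hy', rfl⟩ := hy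
          have hne : x' ≠ y' := fun h => hxy (by rw [h])
          have h1 : (HG m).Adj (e x') (e y') :=
            hcl.isClique (Finset.mem_coe.2 (Finset.mem_map.2 ⟨x', hx', rfl⟩))
              (Finset.mem_coe.2 (Finset.mem_map.2 ⟨y', hy', rfl⟩))
              (fun h => hne (e.injective h))
          exact (he x' y').1 h1
        · intro x hx _
          simp only [Finset.coe_map, Set.mem_image, Finset.mem_coe] at hx
          obtain ⟨x', hx', rfl⟩ := hx
          exact (Finset.mem_filter.1 (htP hx')).2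
      · rw [Finset.card_insert_of_notMem hlast, Finset.card_map]
        have := hcl.card_eq
        rw [Finset.card_map] at this
        rw [this]
    obtain ⟨v, hv1, hv2, hv3, hv4⟩ := HG_ext m _ _ hdisj hcf
    have hvne : ∀ x : Fin k, e x ≠ v := by
      intro x hx
      by_cases h : A.Adj (Fin.last k) x.castSucc
      · exact hv1 (Finset.mem_map.2 ⟨x, Finset.mem_filter.2 ⟨Finset.mem_univ _, h⟩, hx⟩)
      · exact hv2 (Finset.mem_map.2 ⟨x, Finset.mem_filter.2 ⟨Finset.mem_univ _, h⟩, hx⟩)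
    have hvadj : ∀ x : Fin k, (HG m).Adj v (e x) ↔ A.Adj (Fin.last k) x.castSucc := by
      intro x
      by_cases h : A.Adj (Fin.last k) x.castSucc
      · exact ⟨fun _ => h, fun _ => hv3 _
          (Finset.mem_map.2 ⟨x, Finset.mem_filter.2 ⟨Finset.mem_univ _, h⟩, rfl⟩)⟩
      · exact ⟨fun h' => absurd h' (hv4 _
          (Finset.mem_map.2 ⟨x, Finset.mem_filter.2 ⟨Finset.mem_univ _, h⟩, rfl⟩)),
          fun h' => absurd h' h⟩
    refine ⟨⟨⟨Fin.lastCases v (fun x => e x), ?_⟩, ?_⟩⟩
    · intro x y hxy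
      induction x using Fin.lastCases with
      | last =>
        induction y using Fin.lastCases with
        | last => rfl
        | cast y =>
          simp only [Fin.lastCases_last, Fin.lastCases_castSucc] at hxy
          exact absurd hxy.symm (hvne y)
      | cast x =>
        induction y using Fin.lastCases with
        | last =>
          simp only [Fin.lastCases_last, Fin.lastCases_castSucc] at hxy
          exact absurd hxy (hvne x)
        | cast y =>
          simp only [Fin.lastCases_castSucc] at hxy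
          rw [e.injective hxy]
    · intro x y
      induction x using Fin.lastCases with
      | last =>
        induction y using Fin.lastCases with
        | last => simp
        | cast y =>
          change (HG m).Adj (Fin.lastCases (motive := fun _ => ℕ) v (fun x => e x) (Fin.last k))
            (Fin.lastCases (motive := fun _ => ℕ) v (fun x => e x) y.castSucc) ↔ _
          rw [Fin.lastCases_last, Fin.lastCases_castSucc]
          exact hvadj y
      | cast x =>
        induction y using Fin.lastCases with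
        | last =>
          change (HG m).Adj (Fin.lastCases (motive := fun _ => ℕ) v (fun x => e x) x.castSucc)
            (Fin.lastCases (motive := fun _ => ℕ) v (fun x => e x) (Fin.last k)) ↔ _
          rw [Fin.lastCases_last, Fin.lastCases_castSucc, (HG m).adj_comm, A.adj_comm]
          exact hvadj x
        | cast y =>
          change (HG m).Adj (Fin.lastCases (motive := fun _ => ℕ) v (fun x => e x) x.castSucc)
            (Fin.lastCases (motive := fun _ => ℕ) v (fun x => e x) y.castSucc) ↔ _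
          rw [Fin.lastCases_castSucc, Fin.lastCases_castSucc]
          exact he x y

/-- The Henson graph exists. -/
lemma HG_isHenson (m : ℕ) (hm : 1 ≤ m) : IsHenson (m + 1) (HG m) where
  countable := inferInstance
  ultrahomogeneous := by
    classical
    intro s f hf hadj
    let p : PI m := ⟨s.image (fun x => (x, f x)), by
      intro p hp q hq
      simp only [Finset.mem_image] at hp hq
      obtain ⟨x, hx, rfl⟩ := hp
      obtain ⟨y, hy, rfl⟩ := hq
      exact ⟨⟨fun h => by simpa using congrArg f h, fun h => hf hx hy h⟩, (hadj x hx y hy).symm⟩⟩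
    obtain ⟨g, hg⟩ := back_and_forth m hm p
    refine ⟨g, fun x hx => ?_⟩
    exact hg (x, f x) (Finset.mem_image_of_mem _ hx)
  age := by
    intro k A
    constructor
    · rintro ⟨e⟩
      exact SimpleGraph.CliqueFree.comap e.isContained (HG_cliqueFree m hm)
    · intro h
      exact HG_age m k A h

end Existence

/-! ## Basic properties of Henson graphs -/

section Basic

variable {V : Type u} {G : SimpleGraph V} {n : ℕ}

lemma IsHenson.cliqueFree (h : IsHenson n G) : G.CliqueFree n := by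
  by_contra hcon
  have e := SimpleGraph.topEmbeddingOfNotCliqueFree hcon
  have h1 := (h.age n (⊤ : SimpleGraph (Fin n))).1 ⟨e⟩
  refine h1 Finset.univ ?_
  rw [SimpleGraph.isNClique_iff]
  refine ⟨?_, by simp⟩
  intro x _ y _ hxy
  exact hxy

/-- every vertex has arbitrarily many neighbours -/
lemma IsHenson.many_neighbours (h : IsHenson n G) (hn : 3 ≤ n) (x : V) (m : ℕ) :
    ∃ f : Fin m → V, Function.Injective f ∧ ∀ i, G.Adj x (f i) := by
  classical
  -- the star with `m` leaves
  let A : SimpleGraph (Fin (m + 1)) :=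
    { Adj := fun a b => (a = 0 ∧ b ≠ 0) ∨ (b = 0 ∧ a ≠ 0)
      symm := ⟨fun _ _ h => h.symm⟩
      loopless := ⟨fun a h => by rcases h with ⟨h1, h2⟩ | ⟨h1, h2⟩ <;> exact h2 h1⟩ }
  have hA : A.CliqueFree n := by
    refine SimpleGraph.CliqueFree.mono hn ?_
    intro s hs
    rw [SimpleGraph.is3Clique_iff] at hs
    obtain ⟨a, b, c, hab, hac, hbc, _⟩ := hs
    rcases hab with ⟨h1, h2⟩ | ⟨h1, h2⟩ <;> rcases hac with ⟨h3, h4⟩ | ⟨h3, h4⟩ <;>
      rcases hbc with ⟨h5, h6⟩ | ⟨h5, h6⟩ <;> simp_all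
  obtain ⟨e⟩ := (h.age (m + 1) A).2 hA
  obtain ⟨g, hg⟩ := h.ultrahomogeneous {e 0} (fun _ => x) (by simp) (by
    intro a ha b hb
    rw [Finset.mem_singleton] at ha hb
    subst ha; subst hb
    simp)
  refine ⟨fun i => g (e i.succ), ?_, ?_⟩
  · intro i j hij
    exact Fin.succ_injective _ (e.injective (g.injective hij))
  · intro i
    have h1 := hg (e 0) (Finset.mem_singleton_self _)
    rw [← h1, g.map_adj_iff, e.map_adj_iff]
    exact Or.inl ⟨rfl, Fin.succ_ne_zero i⟩

/-- a Henson graph contains `K_{n-1}` -/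
lemma IsHenson.exists_clique (h : IsHenson n G) (hn : 1 ≤ n) :
    ∃ s : Finset V, G.IsNClique (n - 1) s := by
  have h1 : (⊤ : SimpleGraph (Fin (n - 1))).CliqueFree n := by
    intro s hs
    have := s.card_le_univ
    rw [hs.card_eq, Fintype.card_fin] at this
    omega
  obtain ⟨e⟩ := (h.age (n - 1) ⊤).2 h1
  refine ⟨Finset.univ.map e.toEmbedding, ?_⟩
  rw [SimpleGraph.isNClique_iff]
  refine ⟨?_, by simp⟩
  intro x hx y hy hxy
  simp only [Finset.coe_map, Finset.coe_univ, Set.image_univ, Set.mem_range] at hx hy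
  obtain ⟨a, rfl⟩ := hx
  obtain ⟨b, rfl⟩ := hy
  have hab : a ≠ b := fun h => hxy (by rw [h])
  exact e.map_adj_iff.2 hab

lemma IsHenson.nonempty (h : IsHenson n G) (hn : 3 ≤ n) : Nonempty V := by
  obtain ⟨s, hs⟩ := h.exists_clique (by omega)
  have : s.Nonempty := by
    rw [← Finset.card_pos, hs.card_eq]; omega
  exact ⟨this.choose⟩

end Basic

/-! ## The labelling -/

section Label

variable {V : Type u} (G : SimpleGraph V) (ι : V → ℕ)

/-- the number of the least neighbour of `x`. -/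
noncomputable def mn (x : V) : ℕ := sInf (ι '' {y | G.Adj x y})

/-- the two-element label of the vertex `x`. -/
noncomputable def lab (x : V) : Finset (ULift.{v} ℕ) :=
  {ULift.up (2 * ι x), ULift.up (2 * mn G ι x + 1)}

lemma lab_card (x : V) : (lab.{u, v} G ι x).card = 2 := by
  unfold lab
  rw [Finset.card_pair]
  intro h
  have := ULift.up_injective h
  omega

lemma mem_lab_even {x : V} {i : ℕ} :
    ULift.up (2 * i) ∈ lab.{u, v} G ι x ↔ i = ι x := by
  unfold lab
  simp only [Finset.mem_insert, Finset.mem_singleton]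
  constructor
  · rintro (h | h)
    · have := ULift.up_injective h; omega
    · have := ULift.up_injective h; omega
  · rintro rfl; exact Or.inl rfl

lemma mem_lab_odd {x : V} {i : ℕ} :
    ULift.up (2 * i + 1) ∈ lab.{u, v} G ι x ↔ i = mn G ι x := by
  unfold lab
  simp only [Finset.mem_insert, Finset.mem_singleton]
  constructor
  · rintro (h | h)
    · have := ULift.up_injective h; omega
    · have := ULift.up_injective h; omega
  · rintro rfl; exact Or.inr rfl

lemma lab_injective (hι : Function.Injective ι) : Function.Injective (lab.{u, v} G ι) := by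
  intro x y h
  apply hι
  rw [← mem_lab_even.{u, v} G ι (x := y), ← h, mem_lab_even]

lemma mn_le {x y : V} (h : G.Adj x y) : mn G ι x ≤ ι y :=
  Nat.sInf_le ⟨y, h, rfl⟩

lemma mn_attained {x y : V} (h : G.Adj x y) : ∃ z, G.Adj x z ∧ ι z = mn G ι x := by
  have : mn G ι x ∈ ι '' {y | G.Adj x y} := Nat.sInf_mem ⟨ι y, y, h, rfl⟩
  exact this

end Label

lemma not_sunflowerable {V : Type u} {G : SimpleGraph V} {n : ℕ} (hn : 3 ≤ n)
    (h : IsHenson n G) : ¬ Sunflowerable.{u, v} G := by
  classical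
  intro hsun
  have := h.countable
  obtain ⟨ι, hι⟩ := exists_injective_nat V
  have hinj := lab_injective.{u, v} G ι hι
  let e : V ≃ Set.range (lab.{u, v} G ι) := Equiv.ofInjective _ hinj
  have he : ∀ x, ((e x : Set.range (lab.{u, v} G ι)) : Finset (ULift.{v} ℕ)) = lab G ι x :=
    fun x => rfl
  let G' : SimpleGraph (Set.range (lab.{u, v} G ι)) := G.comap e.symm
  obtain ⟨M₀, ⟨r, hr⟩, ⟨φ⟩⟩ := hsun 2 (ULift.{v} ℕ) (Set.range (lab G ι)) G'
    (by rintro _ ⟨x, rfl⟩; exact lab_card G ι x) ⟨SimpleGraph.Iso.comap e.symm G⟩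
  -- the induced self-embedding of `G`
  let ψ : V → V := fun x => e.symm (φ.symm x).1
  have hψinj : Function.Injective ψ := by
    intro x y hxy
    exact φ.symm.injective (Subtype.ext (e.symm.injective hxy))
  have hψadj : ∀ x y, G.Adj (ψ x) (ψ y) ↔ G.Adj x y := by
    intro x y
    exact φ.symm.map_adj_iff (v := x) (w := y)
  have hψmem : ∀ x, lab.{u, v} G ι (ψ x) ∈ (Subtype.val '' M₀ : Set (Finset (ULift.{v} ℕ))) := by
    intro x
    refine ⟨(φ.symm x).1, (φ.symm x).2, ?_⟩
    rw [← he]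
    simp [ψ]
  have hψr : ∀ x y, x ≠ y →
      (lab.{u, v} G ι (ψ x) : Set (ULift.{v} ℕ)) ∩ (lab.{u, v} G ι (ψ y) : Set _) = r := by
    intro x y hxy
    exact hr _ (hψmem x) _ (hψmem y) (fun h => hxy (hψinj (hinj h)))
  obtain ⟨x0⟩ := h.nonempty hn
  -- two neighbours of `x0` with images having the same least neighbour
  obtain ⟨f, hf, hfadj⟩ := h.many_neighbours hn x0 (ι (ψ x0) + 2)
  have hbound : ∀ i, mn G ι (ψ (f i)) ∈ Finset.range (ι (ψ x0) + 1) := by
    intro i
    rw [Finset.mem_range, Nat.lt_succ_iff]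
    apply mn_le
    rw [hψadj]; exact (hfadj i).symm
  obtain ⟨i, _, j, _, hij, hmn⟩ := Finset.exists_ne_map_eq_of_card_lt_of_maps_to
    (s := (Finset.univ : Finset (Fin (ι (ψ x0) + 2)))) (t := Finset.range (ι (ψ x0) + 1))
    (by simp) (f := fun i => mn G ι (ψ (f i))) (fun i _ => hbound i)
  set c := mn G ι (ψ (f i)) with hc
  have hcr : (ULift.up (2 * c + 1) : ULift.{v} ℕ) ∈ r := by
    rw [← hψr (f i) (f j) (fun h => hij (hf h))]
    refine ⟨Finset.mem_coe.2 ((mem_lab_odd G ι).2 hc), Finset.mem_coe.2 ((mem_lab_odd G ι).2 ?_)⟩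
    exact hmn
  -- all images have the same least neighbour
  have hall : ∀ x, mn G ι (ψ x) = c := by
    intro x
    obtain ⟨y, hy⟩ : ∃ y, x ≠ y := by
      by_cases hx : x = f i
      · exact ⟨f j, fun h => hij (hf (hx ▸ h))⟩
      · exact ⟨f i, hx⟩
    rw [← hψr x y hy] at hcr
    exact ((mem_lab_odd G ι).1 (Finset.mem_coe.1 hcr.1)).symm
  obtain ⟨w, hw1, hw2⟩ := mn_attained G ι (x := ψ x0) (y := ψ (f i)) ((hψadj _ _).2 (hfadj i))
  have hwall : ∀ x, G.Adj w (ψ x) := by
    intro x
    obtain ⟨y, hy⟩ : ∃ y, G.Adj x y := by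
      obtain ⟨f', _, hf'⟩ := h.many_neighbours hn x 1
      exact ⟨f' 0, hf' 0⟩
    obtain ⟨w', hw1', hw2'⟩ := mn_attained G ι (x := ψ x) (y := ψ y) ((hψadj _ _).2 hy)
    have : w' = w := by
      apply hι
      rw [hw2', hw2, hall, hall]
    rw [← this]; exact hw1'.symm
  -- a clique of size `n`
  obtain ⟨s, hs⟩ := h.exists_clique (by omega)
  have hws : w ∉ s.image ψ := by
    intro hmem
    obtain ⟨x, _, hx⟩ := Finset.mem_image.1 hmem
    have := hwall x
    rw [hx] at this
    exact G.irrefl this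
  apply h.cliqueFree (insert w (s.image ψ))
  rw [SimpleGraph.isNClique_iff]
  refine ⟨?_, ?_⟩
  · rw [Finset.coe_insert, SimpleGraph.isClique_insert]
    refine ⟨?_, ?_⟩
    · intro a ha b hb hab
      simp only [Finset.coe_image, Set.mem_image, Finset.mem_coe] at ha hb
      obtain ⟨x, hx, rfl⟩ := ha
      obtain ⟨y, hy, rfl⟩ := hb
      rw [hψadj]
      exact hs.isClique (Finset.mem_coe.2 hx) (Finset.mem_coe.2 hy) (fun h => hab (by rw [h]))
    · intro a ha _
      simp only [Finset.coe_image, Set.mem_image, Finset.mem_coe] at ha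
      obtain ⟨x, hx, rfl⟩ := ha
      exact hwall x
  · rw [Finset.card_insert_of_notMem hws, Finset.card_image_of_injective _ hψinj, hs.card_eq]
    omega

/-- For every `n ≥ 3` the Henson graph `H_n` exists, and no graph that is a Henson graph `H_n` is
sunflowerable. -/
theorem result (n : ℕ) (hn : 3 ≤ n) :
    (∃ G : SimpleGraph ℕ, IsHenson n G) ∧
      ∀ (V : Type u) (G : SimpleGraph V), IsHenson n G → ¬ Sunflowerable.{u, v} G := by
  refine ⟨?_, fun V G h => not_sunflowerable hn h⟩
  obtain ⟨m, rfl⟩ : ∃ m, n = m + 1 := ⟨n - 1, by omega⟩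
  exact ⟨HG m, HG_isHenson m (by omega)⟩

end Pool.Agent.Results.MP_ac8c78_lc.NotSunflowerable
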